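import Mathlib

set_option autoImplicit false

namespace Pool.Agent.Results.MP_914aa3_co.NotDecomposing

/-- Short partizan games: finite lists of Left and Right options. `nil` has no options, `consL x G`
is `G` with the further Left option `x`, and `consR x G` is `G` with the further Right option `x`. -/
inductive Game : Type
  | nil : Game
  | consL (x G : Game) : Game
  | consR (x G : Game) : Game

namespace Game

/-- the Left options -/
def left : Game → List Game
  | nil => []
  | consL x G => x :: left G
  | consR _ G => left G

/-- the Right options -/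
def right : Game → List Game
  | nil => []
  | consL _ G => right G
  | consR x G => x :: right G

/-- the game with given lists of Left and Right options -/
def mk (L R : List Game) : Game := L.foldr consL (R.foldr consR nil)

theorem left_mk (L R : List Game) : (mk L R).left = L := by
  have h : ∀ R : List Game, (R.foldr consR nil).left = [] := by
    intro R; induction R with
    | nil => rfl
    | cons a R ih => exact ih
  unfold mk
  induction L with
  | nil => exact h R
  | cons a L ih => show a :: _ = _; rw [ih]

theorem right_mk (L R : List Game) : (mk L R).right = R := by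
  have h : ∀ R : List Game, (R.foldr consR nil).right = R := by
    intro R; induction R with
    | nil => rfl
    | cons a R ih => show a :: _ = _; rw [ih]
  unfold mk
  induction L with
  | nil => exact h R
  | cons a L ih => exact ih

theorem sizeOf_left {G x : Game} (h : x ∈ G.left) : sizeOf x < sizeOf G := by
  induction G with
  | nil => simp [left] at h
  | consL y G _ ih =>
    simp only [left, List.mem_cons] at h
    simp only [Game.consL.sizeOf_spec]
    rcases h with rfl | h
    · omega
    · have := ih h; omega
  | consR y G _ ih =>
    simp only [left] at h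
    simp only [Game.consR.sizeOf_spec]
    have := ih h; omega

theorem sizeOf_right {G x : Game} (h : x ∈ G.right) : sizeOf x < sizeOf G := by
  induction G with
  | nil => simp [right] at h
  | consL y G _ ih =>
    simp only [right] at h
    simp only [Game.consL.sizeOf_spec]
    have := ih h; omega
  | consR y G _ ih =>
    simp only [right, List.mem_cons] at h
    simp only [Game.consR.sizeOf_spec]
    rcases h with rfl | h
    · omega
    · have := ih h; omega

/-- Conway's order: `G ≤ H` iff no Left option of `G` is `≥ H` and no Right option of `H` is `≤ G`. -/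
def le (G H : Game) : Prop :=
  (∀ x, (h : x ∈ G.left) → ¬ le H x) ∧ (∀ y, (h : y ∈ H.right) → ¬ le y G)
termination_by sizeOf G + sizeOf H
decreasing_by
  · have := sizeOf_left h; omega
  · have := sizeOf_right h; omega

/-- `G` and `H` have the same value. -/
def Eqv (G H : Game) : Prop := le G H ∧ le H G

/-- The disjunctive sum. -/
def add (G H : Game) : Game :=
  mk ((G.left.attach.map fun x => add x.1 H) ++ (H.left.attach.map fun y => add G y.1))
    ((G.right.attach.map fun x => add x.1 H) ++ (H.right.attach.map fun y => add G y.1))
termination_by sizeOf G + sizeOf H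
decreasing_by
  · have := sizeOf_left x.2; omega
  · have := sizeOf_left y.2; omega
  · have := sizeOf_right x.2; omega
  · have := sizeOf_right y.2; omega

/-- computable versions, with fuel -/
def leB : ℕ → Game → Game → Bool
  | 0, _, _ => false
  | n + 1, G, H => (G.left.all fun x => !leB n H x) && (H.right.all fun y => !leB n y G)

def addB : ℕ → Game → Game → Game
  | 0, _, _ => mk [] []
  | n + 1, G, H => mk ((G.left.map fun x => addB n x H) ++ (H.left.map fun y => addB n G y))
      ((G.right.map fun x => addB n x H) ++ (H.right.map fun y => addB n G y))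

/-- the game has birthday at most `n` -/
def bd : ℕ → Game → Prop
  | 0, G => G.left = [] ∧ G.right = []
  | n + 1, G => (∀ x ∈ G.left, bd n x) ∧ ∀ x ∈ G.right, bd n x

theorem leB_iff (n : ℕ) : ∀ (a b : ℕ) (G H : Game), bd a G → bd b H → a + b < n →
    (leB n G H = true ↔ le G H) := by
  induction n with
  | zero => intro a b G H _ _ h; omega
  | succ n ih =>
    intro a b G H hG hH hab
    rw [le, leB]
    simp only [Bool.and_eq_true, List.all_eq_true, Bool.not_eq_true', Bool.eq_false_iff, ne_eq]
    constructor
    · rintro ⟨h1, h2⟩
      refine ⟨fun x hx => ?_, fun y hy => ?_⟩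
      · rcases a with _ | a
        · rw [hG.1] at hx; simp at hx
        · exact fun h => h1 x hx ((ih b a H x hH (hG.1 x hx) (by omega)).mpr h)
      · rcases b with _ | b
        · rw [hH.2] at hy; simp at hy
        · exact fun h => h2 y hy ((ih b a y G (hH.2 y hy) hG (by omega)).mpr h)
    · rintro ⟨h1, h2⟩
      refine ⟨fun x hx => ?_, fun y hy => ?_⟩
      · rcases a with _ | a
        · rw [hG.1] at hx; simp at hx
        · exact fun h => h1 x hx ((ih b a H x hH (hG.1 x hx) (by omega)).mp h)
      · rcases b with _ | b
        · rw [hH.2] at hy; simp at hy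
        · exact fun h => h2 y hy ((ih b a y G (hH.2 y hy) hG (by omega)).mp h)

theorem addB_eq (n : ℕ) : ∀ (a b : ℕ) (G H : Game), bd a G → bd b H → a + b < n →
    addB n G H = add G H := by
  induction n with
  | zero => intro a b G H _ _ h; omega
  | succ n ih =>
    intro a b G H hG hH hab
    rw [add, addB]
    have e1 : ∀ x ∈ G.left, addB n x H = add x H := by
      intro x hx
      rcases a with _ | a
      · rw [hG.1] at hx; simp at hx
      · exact ih a b x H (hG.1 x hx) hH (by omega)
    have e2 : ∀ x ∈ G.right, addB n x H = add x H := by
      intro x hx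
      rcases a with _ | a
      · rw [hG.2] at hx; simp at hx
      · exact ih a b x H (hG.2 x hx) hH (by omega)
    have e3 : ∀ y ∈ H.left, addB n G y = add G y := by
      intro x hx
      rcases b with _ | b
      · rw [hH.1] at hx; simp at hx
      · exact ih a b G x hG (hH.1 x hx) (by omega)
    have e4 : ∀ y ∈ H.right, addB n G y = add G y := by
      intro x hx
      rcases b with _ | b
      · rw [hH.2] at hx; simp at hx
      · exact ih a b G x hG (hH.2 x hx) (by omega)
    have key : ∀ (l : List Game) (f g : Game → Game), (∀ x ∈ l, f x = g x) →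
        l.map f = l.attach.map fun x => g x.1 := by
      intro l f g h
      rw [List.map_congr_left h]
      conv_lhs => rw [← List.attach_map_subtype_val l]
      rw [List.map_map]
      rfl
    rw [key _ _ _ e1, key _ _ _ e2, key _ _ _ e3, key _ _ _ e4]

theorem bd_nil (n : ℕ) : bd n (mk [] []) := by
  cases n with
  | zero => exact ⟨rfl, rfl⟩
  | succ n => exact ⟨fun x hx => by rw [left_mk] at hx; simp at hx,
      fun x hx => by rw [right_mk] at hx; simp at hx⟩

theorem bd_addB (n : ℕ) : ∀ (a b : ℕ) (G H : Game), bd a G → bd b H → bd (a + b) (addB n G H) := by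
  induction n with
  | zero => intro a b G H _ _; exact bd_nil _
  | succ n ih =>
    intro a b G H hG hH
    rcases hab : a + b with _ | c
    · obtain rfl : a = 0 := by omega
      obtain rfl : b = 0 := by omega
      constructor
      · rw [addB, left_mk, hG.1, hH.1]; rfl
      · rw [addB, right_mk, hG.2, hH.2]; rfl
    · simp only [addB, bd, left_mk, right_mk, List.mem_append, List.mem_map]
      have hGL : ∀ x, x ∈ G.left → bd c (addB n x H) := by
        intro x hx
        rcases a with _ | a
        · rw [hG.1] at hx; simp at hx
        · have := ih a b x H (hG.1 x hx) hH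
          rwa [show a + b = c by omega] at this
      have hGR : ∀ x, x ∈ G.right → bd c (addB n x H) := by
        intro x hx
        rcases a with _ | a
        · rw [hG.2] at hx; simp at hx
        · have := ih a b x H (hG.2 x hx) hH
          rwa [show a + b = c by omega] at this
      have hHL : ∀ y, y ∈ H.left → bd c (addB n G y) := by
        intro x hx
        rcases b with _ | b
        · rw [hH.1] at hx; simp at hx
        · have := ih a b G x hG (hH.1 x hx)
          rwa [show a + b = c by omega] at this
      have hHR : ∀ y, y ∈ H.right → bd c (addB n G y) := by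
        intro x hx
        rcases b with _ | b
        · rw [hH.2] at hx; simp at hx
        · have := ih a b G x hG (hH.2 x hx)
          rwa [show a + b = c by omega] at this
      constructor
      · rintro x (⟨y, hy, rfl⟩ | ⟨y, hy, rfl⟩)
        · exact hGL y hy
        · exact hHL y hy
      · rintro x (⟨y, hy, rfl⟩ | ⟨y, hy, rfl⟩)
        · exact hGR y hy
        · exact hHR y hy

end Game

open Game

/-! ### Konane on a row -/

/-- A position is the list of occupied cells of the row `ℤ`. Stones in odd cells are white, stones in
even cells are black. `jumps P x d n` lists the positions reached from `P` by one, two, ... (at most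
`n`) consecutive jumps of the stone in cell `x` in the direction `d = 1` or `d = -1`. -/
def jumps (P : List ℤ) (x d : ℤ) : ℕ → List (List ℤ)
  | 0 => []
  | n + 1 =>
    if x + d ∈ P ∧ x + 2 * d ∉ P then
      ((x + 2 * d) :: (P.erase x).erase (x + d)) ::
        jumps ((x + 2 * d) :: (P.erase x).erase (x + d)) (x + 2 * d) d n
    else []

/-- The moves from `P` of the player owning the stones in the cells `x` with `c x = true`. -/
def moves (c : ℤ → Bool) (P : List ℤ) : List (List ℤ) :=
  P.flatMap fun x => if c x then jumps P x 1 P.length ++ jumps P x (-1) P.length else []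

/-- black (Left) owns the even cells -/
def black (x : ℤ) : Bool := x % 2 = 0

/-- white (Right) owns the odd cells -/
def white (x : ℤ) : Bool := x % 2 = 1

/-- The game tree of `P`, cut off after `n` moves. -/
def tree : ℕ → List ℤ → Game
  | 0, _ => mk [] []
  | n + 1, P => mk ((moves black P).map (tree n)) ((moves white P).map (tree n))

/-- The game given by the position `P`. (Every move removes a stone, so the cut-off is harmless.) -/
def game (P : List ℤ) : Game := tree P.length P

/-- `n` consecutive stones, the first in cell `a` -/
def run (a : ℤ) (n : ℕ) : List ℤ := (List.range n).map fun i => a + i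

/-- `S(k,m)` -/
def S2 (k m : ℕ) : List ℤ := run 1 k ++ run (k + 2) m

/-- `S(k, m·, n)` -/
def S3 (k m n : ℕ) : List ℤ := run 1 k ++ run (k + 2) m ++ run (k + m + 4) n

/-- `S(k, m·, n)` decomposes -/
def Decomposes (k m n : ℕ) : Prop :=
  Eqv (game (S3 k m n)) (add (game (S2 k m)) (game (run (k + m + 4) n)))

theorem bd_tree (n : ℕ) (P : List ℤ) : bd n (tree n P) := by
  induction n generalizing P with
  | zero => exact ⟨rfl, rfl⟩
  | succ n ih =>
    refine ⟨fun x hx => ?_, fun x hx => ?_⟩
    · simp only [tree, left_mk, List.mem_map] at hx
      obtain ⟨Q, -, rfl⟩ := hx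
      exact ih Q
    · simp only [tree, right_mk, List.mem_map] at hx
      obtain ⟨Q, -, rfl⟩ := hx
      exact ih Q

/-- The example of the problem file: `S(4, 2·, 3)`. -/
theorem example_position : S3 4 2 3 = [1, 2, 3, 4, 6, 7, 10, 11, 12] := by decide +kernel

theorem not_decomposes_of (k m n : ℕ) (a b c : ℕ) (ha : (S3 k m n).length = a)
    (hb : (S2 k m).length = b) (hc : (run ((k : ℤ) + m + 4) n).length = c)
    (h : (leB (a + b + c + 1) (game (S3 k m n))
        (addB (b + c + 1) (game (S2 k m)) (game (run (k + m + 4) n))) &&
      leB (a + b + c + 1) (addB (b + c + 1) (game (S2 k m)) (game (run (k + m + 4) n)))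
        (game (S3 k m n))) = false) : ¬ Decomposes k m n := by
  have h1 : bd a (game (S3 k m n)) := by subst ha; exact bd_tree _ _
  have h2 : bd b (game (S2 k m)) := by subst hb; exact bd_tree _ _
  have h3 : bd c (game (run ((k : ℤ) + m + 4) n)) := by subst hc; exact bd_tree _ _
  have h4 := addB_eq (b + c + 1) b c _ _ h2 h3 (by omega)
  have h5 := bd_addB (b + c + 1) b c _ _ h2 h3
  rintro ⟨h6, h7⟩
  rw [← h4] at h6 h7
  rw [(leB_iff _ a (b + c) _ _ h1 h5 (by omega)).mpr h6,
    (leB_iff _ (b + c) a _ _ h5 h1 (by omega)).mpr h7] at h
  simp at h

/-- `(k,m,n)` is one of the allowed exceptions `(2j, 2j, 2k')` with `j` odd -/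
def Exceptional (k m n : ℕ) : Prop :=
  ∃ j k' : ℕ, Odd j ∧ k = 2 * j ∧ m = 2 * j ∧ n = 2 * k'

/-- **Main result.** Neither of the positions `S(1, 2·, 2)`, `S(1, 2·, 4)`, `S(1, 4·, 2)` decomposes,
although none of the triples is of the form `(2j, 2j, 2k')` with `j` odd. -/
theorem result : (¬ Decomposes 1 2 2 ∧ ¬ Exceptional 1 2 2) ∧
    (¬ Decomposes 1 2 4 ∧ ¬ Exceptional 1 2 4) ∧ (¬ Decomposes 1 4 2 ∧ ¬ Exceptional 1 4 2) := by
  refine ⟨⟨?_, ?_⟩, ⟨?_, ?_⟩, ⟨?_, ?_⟩⟩
  · exact not_decomposes_of 1 2 2 5 3 2 (by decide +kernel) (by decide +kernel) (by decide +kernel)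
      (by decide +kernel)
  · rintro ⟨j, k', -, h, -⟩; omega
  · exact not_decomposes_of 1 2 4 7 3 4 (by decide +kernel) (by decide +kernel) (by decide +kernel)
      (by decide +kernel)
  · rintro ⟨j, k', -, h, -⟩; omega
  · exact not_decomposes_of 1 4 2 7 5 2 (by decide +kernel) (by decide +kernel) (by decide +kernel)
      (by decide +kernel)
  · rintro ⟨j, k', -, h, -⟩; omega

end Pool.Agent.Results.MP_914aa3_co.NotDecomposing
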